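import Pool.Agent.H63.MT.Tab

set_option autoImplicit false
set_option maxRecDepth 100000

namespace Pool.Agent.H63.MT

open Pool.Agent.H63.MG

theorem ck0200 : chk 0 0 2 1 0 0 0 0 = true := by decide +kernel
theorem ck0201 : chk 0 0 2 1 0 0 1 2 = true := by decide +kernel
theorem ck0202 : chk 0 0 2 1 0 0 2 1 = true := by decide +kernel
theorem ck0203 : chk 0 0 2 1 0 0 3 3 = true := by decide +kernel
theorem ck0210 : chk 0 0 2 1 1 2 0 0 = true := by decide +kernel
theorem ck0211 : chk 0 0 2 1 1 2 1 2 = true := by decide +kernel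
theorem ck0212 : chk 0 0 2 1 1 2 2 1 = true := by decide +kernel
theorem ck0213 : chk 0 0 2 1 1 2 3 3 = true := by decide +kernel
theorem ck0220 : chk 0 0 2 1 2 1 0 0 = true := by decide +kernel
theorem ck0221 : chk 0 0 2 1 2 1 1 2 = true := by decide +kernel
theorem ck0222 : chk 0 0 2 1 2 1 2 1 = true := by decide +kernel
theorem ck0223 : chk 0 0 2 1 2 1 3 3 = true := by decide +kernel
theorem ck0230 : chk 0 0 2 1 3 3 0 0 = true := by decide +kernel
theorem ck0231 : chk 0 0 2 1 3 3 1 2 = true := by decide +kernel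
theorem ck0232 : chk 0 0 2 1 3 3 2 1 = true := by decide +kernel
theorem ck0233 : chk 0 0 2 1 3 3 3 3 = true := by decide +kernel

end Pool.Agent.H63.MT
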