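import Pool.Agent.H63.MT.Tab

set_option autoImplicit false
set_option maxRecDepth 100000

namespace Pool.Agent.H63.MT

open Pool.Agent.H63.MG

theorem ck0300 : chk 0 0 3 3 0 0 0 0 = true := by decide +kernel
theorem ck0301 : chk 0 0 3 3 0 0 1 2 = true := by decide +kernel
theorem ck0302 : chk 0 0 3 3 0 0 2 1 = true := by decide +kernel
theorem ck0303 : chk 0 0 3 3 0 0 3 3 = true := by decide +kernel
theorem ck0310 : chk 0 0 3 3 1 2 0 0 = true := by decide +kernel
theorem ck0311 : chk 0 0 3 3 1 2 1 2 = true := by decide +kernel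
theorem ck0312 : chk 0 0 3 3 1 2 2 1 = true := by decide +kernel
theorem ck0313 : chk 0 0 3 3 1 2 3 3 = true := by decide +kernel
theorem ck0320 : chk 0 0 3 3 2 1 0 0 = true := by decide +kernel
theorem ck0321 : chk 0 0 3 3 2 1 1 2 = true := by decide +kernel
theorem ck0322 : chk 0 0 3 3 2 1 2 1 = true := by decide +kernel
theorem ck0323 : chk 0 0 3 3 2 1 3 3 = true := by decide +kernel
theorem ck0330 : chk 0 0 3 3 3 3 0 0 = true := by decide +kernel
theorem ck0331 : chk 0 0 3 3 3 3 1 2 = true := by decide +kernel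
theorem ck0332 : chk 0 0 3 3 3 3 2 1 = true := by decide +kernel
theorem ck0333 : chk 0 0 3 3 3 3 3 3 = true := by decide +kernel

end Pool.Agent.H63.MT
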