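import Pool.Agent.H63.MT.Tab

set_option autoImplicit false
set_option maxRecDepth 100000

namespace Pool.Agent.H63.MT

open Pool.Agent.H63.MG

theorem ck1000 : chk 1 2 0 0 0 0 0 0 = true := by decide +kernel
theorem ck1001 : chk 1 2 0 0 0 0 1 2 = true := by decide +kernel
theorem ck1002 : chk 1 2 0 0 0 0 2 1 = true := by decide +kernel
theorem ck1003 : chk 1 2 0 0 0 0 3 3 = true := by decide +kernel
theorem ck1010 : chk 1 2 0 0 1 2 0 0 = true := by decide +kernel
theorem ck1011 : chk 1 2 0 0 1 2 1 2 = true := by decide +kernel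
theorem ck1012 : chk 1 2 0 0 1 2 2 1 = true := by decide +kernel
theorem ck1013 : chk 1 2 0 0 1 2 3 3 = true := by decide +kernel
theorem ck1020 : chk 1 2 0 0 2 1 0 0 = true := by decide +kernel
theorem ck1021 : chk 1 2 0 0 2 1 1 2 = true := by decide +kernel
theorem ck1022 : chk 1 2 0 0 2 1 2 1 = true := by decide +kernel
theorem ck1023 : chk 1 2 0 0 2 1 3 3 = true := by decide +kernel
theorem ck1030 : chk 1 2 0 0 3 3 0 0 = true := by decide +kernel
theorem ck1031 : chk 1 2 0 0 3 3 1 2 = true := by decide +kernel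
theorem ck1032 : chk 1 2 0 0 3 3 2 1 = true := by decide +kernel
theorem ck1033 : chk 1 2 0 0 3 3 3 3 = true := by decide +kernel

end Pool.Agent.H63.MT
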