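import Pool.Agent.H63.MT.Tab

set_option autoImplicit false
set_option maxRecDepth 100000

namespace Pool.Agent.H63.MT

open Pool.Agent.H63.MG

theorem ck2000 : chk 2 1 0 0 0 0 0 0 = true := by decide +kernel
theorem ck2001 : chk 2 1 0 0 0 0 1 2 = true := by decide +kernel
theorem ck2002 : chk 2 1 0 0 0 0 2 1 = true := by decide +kernel
theorem ck2003 : chk 2 1 0 0 0 0 3 3 = true := by decide +kernel
theorem ck2010 : chk 2 1 0 0 1 2 0 0 = true := by decide +kernel
theorem ck2011 : chk 2 1 0 0 1 2 1 2 = true := by decide +kernel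
theorem ck2012 : chk 2 1 0 0 1 2 2 1 = true := by decide +kernel
theorem ck2013 : chk 2 1 0 0 1 2 3 3 = true := by decide +kernel
theorem ck2020 : chk 2 1 0 0 2 1 0 0 = true := by decide +kernel
theorem ck2021 : chk 2 1 0 0 2 1 1 2 = true := by decide +kernel
theorem ck2022 : chk 2 1 0 0 2 1 2 1 = true := by decide +kernel
theorem ck2023 : chk 2 1 0 0 2 1 3 3 = true := by decide +kernel
theorem ck2030 : chk 2 1 0 0 3 3 0 0 = true := by decide +kernel
theorem ck2031 : chk 2 1 0 0 3 3 1 2 = true := by decide +kernel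
theorem ck2032 : chk 2 1 0 0 3 3 2 1 = true := by decide +kernel
theorem ck2033 : chk 2 1 0 0 3 3 3 3 = true := by decide +kernel

end Pool.Agent.H63.MT
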