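import Pool.Agent.H63.MT.Tab

set_option autoImplicit false
set_option maxRecDepth 100000

namespace Pool.Agent.H63.MT

open Pool.Agent.H63.MG

theorem ck2200 : chk 2 1 2 1 0 0 0 0 = true := by decide +kernel
theorem ck2201 : chk 2 1 2 1 0 0 1 2 = true := by decide +kernel
theorem ck2202 : chk 2 1 2 1 0 0 2 1 = true := by decide +kernel
theorem ck2203 : chk 2 1 2 1 0 0 3 3 = true := by decide +kernel
theorem ck2210 : chk 2 1 2 1 1 2 0 0 = true := by decide +kernel
theorem ck2211 : chk 2 1 2 1 1 2 1 2 = true := by decide +kernel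
theorem ck2212 : chk 2 1 2 1 1 2 2 1 = true := by decide +kernel
theorem ck2213 : chk 2 1 2 1 1 2 3 3 = true := by decide +kernel
theorem ck2220 : chk 2 1 2 1 2 1 0 0 = true := by decide +kernel
theorem ck2221 : chk 2 1 2 1 2 1 1 2 = true := by decide +kernel
theorem ck2222 : chk 2 1 2 1 2 1 2 1 = true := by decide +kernel
theorem ck2223 : chk 2 1 2 1 2 1 3 3 = true := by decide +kernel
theorem ck2230 : chk 2 1 2 1 3 3 0 0 = true := by decide +kernel
theorem ck2231 : chk 2 1 2 1 3 3 1 2 = true := by decide +kernel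
theorem ck2232 : chk 2 1 2 1 3 3 2 1 = true := by decide +kernel
theorem ck2233 : chk 2 1 2 1 3 3 3 3 = true := by decide +kernel

end Pool.Agent.H63.MT
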