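import Pool.Agent.H63.MT.Tab

set_option autoImplicit false
set_option maxRecDepth 100000

namespace Pool.Agent.H63.MT

open Pool.Agent.H63.MG

theorem ck2300 : chk 2 1 3 3 0 0 0 0 = true := by decide +kernel
theorem ck2301 : chk 2 1 3 3 0 0 1 2 = true := by decide +kernel
theorem ck2302 : chk 2 1 3 3 0 0 2 1 = true := by decide +kernel
theorem ck2303 : chk 2 1 3 3 0 0 3 3 = true := by decide +kernel
theorem ck2310 : chk 2 1 3 3 1 2 0 0 = true := by decide +kernel
theorem ck2311 : chk 2 1 3 3 1 2 1 2 = true := by decide +kernel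
theorem ck2312 : chk 2 1 3 3 1 2 2 1 = true := by decide +kernel
theorem ck2313 : chk 2 1 3 3 1 2 3 3 = true := by decide +kernel
theorem ck2320 : chk 2 1 3 3 2 1 0 0 = true := by decide +kernel
theorem ck2321 : chk 2 1 3 3 2 1 1 2 = true := by decide +kernel
theorem ck2322 : chk 2 1 3 3 2 1 2 1 = true := by decide +kernel
theorem ck2323 : chk 2 1 3 3 2 1 3 3 = true := by decide +kernel
theorem ck2330 : chk 2 1 3 3 3 3 0 0 = true := by decide +kernel
theorem ck2331 : chk 2 1 3 3 3 3 1 2 = true := by decide +kernel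
theorem ck2332 : chk 2 1 3 3 3 3 2 1 = true := by decide +kernel
theorem ck2333 : chk 2 1 3 3 3 3 3 3 = true := by decide +kernel

end Pool.Agent.H63.MT
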