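import Pool.Agent.H63.MT.Tab

set_option autoImplicit false
set_option maxRecDepth 100000

namespace Pool.Agent.H63.MT

open Pool.Agent.H63.MG

theorem ck3100 : chk 3 3 1 2 0 0 0 0 = true := by decide +kernel
theorem ck3101 : chk 3 3 1 2 0 0 1 2 = true := by decide +kernel
theorem ck3102 : chk 3 3 1 2 0 0 2 1 = true := by decide +kernel
theorem ck3103 : chk 3 3 1 2 0 0 3 3 = true := by decide +kernel
theorem ck3110 : chk 3 3 1 2 1 2 0 0 = true := by decide +kernel
theorem ck3111 : chk 3 3 1 2 1 2 1 2 = true := by decide +kernel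
theorem ck3112 : chk 3 3 1 2 1 2 2 1 = true := by decide +kernel
theorem ck3113 : chk 3 3 1 2 1 2 3 3 = true := by decide +kernel
theorem ck3120 : chk 3 3 1 2 2 1 0 0 = true := by decide +kernel
theorem ck3121 : chk 3 3 1 2 2 1 1 2 = true := by decide +kernel
theorem ck3122 : chk 3 3 1 2 2 1 2 1 = true := by decide +kernel
theorem ck3123 : chk 3 3 1 2 2 1 3 3 = true := by decide +kernel
theorem ck3130 : chk 3 3 1 2 3 3 0 0 = true := by decide +kernel
theorem ck3131 : chk 3 3 1 2 3 3 1 2 = true := by decide +kernel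
theorem ck3132 : chk 3 3 1 2 3 3 2 1 = true := by decide +kernel
theorem ck3133 : chk 3 3 1 2 3 3 3 3 = true := by decide +kernel

end Pool.Agent.H63.MT
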