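import Pool.Agent.H63.MT.Tab

set_option autoImplicit false
set_option maxRecDepth 100000

namespace Pool.Agent.H63.MT

open Pool.Agent.H63.MG

/-- some transitive blow-up of the four vertices has five vertices without a dominated triple -/
def anytf (x y z u v w : ℕ) : Bool :=
  (or (tf 1 x x y x x y 1 u u)
  (or (tf 1 x x z x x z 1 v v)
  (or (tf 1 x y y x y y u u 1)
  (or (tf 1 x y z x y z u v w)
  (or (tf 1 x z z x z z v v 1)
  (or (tf 1 y y z y y z 1 w w)
  (or (tf 1 y z z y z z w w 1)
  (or (tf x x y y 1 u u u u 1)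
  (or (tf x x y z 1 u v u v w)
  (or (tf x x z z 1 v v v v 1)
  (or (tf x y y z u u v 1 w w)
  (or (tf x y z z u v v w w 1)
  (or (tf y y z z 1 w w w w 1)
  (or (tf 1 u u v u u v 1 w w)
  (or (tf 1 u v v u v v w w 1)
  (tf u u v v 1 w w w w 1))))))))))))))))

def chkb : Bool := nall 4 fun x => nall 4 fun y => nall 4 fun z => nall 4 fun u => nall 4 fun v => nall 4 fun w =>
  or (Nat.beq (bt x y z u v w) 0) (anytf x y z u v w)
theorem cbb : chkb = true := by decide +kernel

end Pool.Agent.H63.MT
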