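import Pool.Agent.H63.MT.TabP

set_option autoImplicit false
set_option maxRecDepth 100000

namespace Pool.Agent.H63.MT

open Pool.Agent.H63.MG

theorem cd13_0 : chkd 13 0 = true := by decide +kernel
theorem cd13_1 : chkd 13 13 = true := by decide +kernel
theorem cd13_2 : chkd 13 26 = true := by decide +kernel
theorem cd13_3 : chkd 13 39 = true := by decide +kernel
theorem cd13_4 : chkd 13 52 = true := by decide +kernel
theorem cs13 : chks 13 = true := by decide +kernel

end Pool.Agent.H63.MT
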