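import Pool.Agent.H63.MT.TabP

set_option autoImplicit false
set_option maxRecDepth 100000

namespace Pool.Agent.H63.MT

open Pool.Agent.H63.MG

theorem cd5_0 : chkd 5 0 = true := by decide +kernel
theorem cd5_1 : chkd 5 13 = true := by decide +kernel
theorem cd5_2 : chkd 5 26 = true := by decide +kernel
theorem cd5_3 : chkd 5 39 = true := by decide +kernel
theorem cd5_4 : chkd 5 52 = true := by decide +kernel
theorem cs5 : chks 5 = true := by decide +kernel

end Pool.Agent.H63.MT
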