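import Pool.Agent.H63.MT.TabP

set_option autoImplicit false
set_option maxRecDepth 100000

namespace Pool.Agent.H63.MT

open Pool.Agent.H63.MG

theorem cd7_0 : chkd 7 0 = true := by decide +kernel
theorem cd7_1 : chkd 7 13 = true := by decide +kernel
theorem cd7_2 : chkd 7 26 = true := by decide +kernel
theorem cd7_3 : chkd 7 39 = true := by decide +kernel
theorem cd7_4 : chkd 7 52 = true := by decide +kernel
theorem cs7 : chks 7 = true := by decide +kernel

end Pool.Agent.H63.MT
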