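import Pool.Agent.H63.MT.TabP

set_option autoImplicit false
set_option maxRecDepth 100000

namespace Pool.Agent.H63.MT

open Pool.Agent.H63.MG

theorem cd9_0 : chkd 9 0 = true := by decide +kernel
theorem cd9_1 : chkd 9 13 = true := by decide +kernel
theorem cd9_2 : chkd 9 26 = true := by decide +kernel
theorem cd9_3 : chkd 9 39 = true := by decide +kernel
theorem cd9_4 : chkd 9 52 = true := by decide +kernel
theorem cs9 : chks 9 = true := by decide +kernel

end Pool.Agent.H63.MT
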