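import Pool.Agent.H63.MT.TabP

set_option autoImplicit false
set_option maxRecDepth 100000

namespace Pool.Agent.H63.MT

open Pool.Agent.H63.MG

theorem cq0 : chkq 0 = true := by decide +kernel
theorem cq1 : chkq 1 = true := by decide +kernel
theorem cq2 : chkq 2 = true := by decide +kernel
theorem cq3 : chkq 3 = true := by decide +kernel
theorem cq4 : chkq 4 = true := by decide +kernel
theorem cq5 : chkq 5 = true := by decide +kernel
theorem cq6 : chkq 6 = true := by decide +kernel
theorem cq7 : chkq 7 = true := by decide +kernel
theorem cq8 : chkq 8 = true := by decide +kernel
theorem cq9 : chkq 9 = true := by decide +kernel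
theorem cq10 : chkq 10 = true := by decide +kernel
theorem cq11 : chkq 11 = true := by decide +kernel
theorem cq12 : chkq 12 = true := by decide +kernel
theorem cq13 : chkq 13 = true := by decide +kernel
theorem cq14 : chkq 14 = true := by decide +kernel
theorem cq15 : chkq 15 = true := by decide +kernel
theorem cti : chkti = true := by decide +kernel
theorem cuu : chku = true := by decide +kernel

end Pool.Agent.H63.MT
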