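import Pool.Agent.H63.MT.TabP

set_option autoImplicit false
set_option maxRecDepth 100000

namespace Pool.Agent.H63.MT

open Pool.Agent.H63.MG

theorem cq16 : chkq 16 = true := by decide +kernel
theorem cq17 : chkq 17 = true := by decide +kernel
theorem cq18 : chkq 18 = true := by decide +kernel
theorem cq19 : chkq 19 = true := by decide +kernel
theorem cq20 : chkq 20 = true := by decide +kernel
theorem cq21 : chkq 21 = true := by decide +kernel
theorem cq22 : chkq 22 = true := by decide +kernel
theorem cq23 : chkq 23 = true := by decide +kernel
theorem cq24 : chkq 24 = true := by decide +kernel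
theorem cq25 : chkq 25 = true := by decide +kernel
theorem cq26 : chkq 26 = true := by decide +kernel
theorem cq27 : chkq 27 = true := by decide +kernel
theorem cq28 : chkq 28 = true := by decide +kernel
theorem cq29 : chkq 29 = true := by decide +kernel
theorem cq30 : chkq 30 = true := by decide +kernel
theorem cq31 : chkq 31 = true := by decide +kernel

end Pool.Agent.H63.MT
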