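import Pool.Agent.H63.MT.TabP

set_option autoImplicit false
set_option maxRecDepth 100000

namespace Pool.Agent.H63.MT

open Pool.Agent.H63.MG

theorem cq32 : chkq 32 = true := by decide +kernel
theorem cq33 : chkq 33 = true := by decide +kernel
theorem cq34 : chkq 34 = true := by decide +kernel
theorem cq35 : chkq 35 = true := by decide +kernel
theorem cq36 : chkq 36 = true := by decide +kernel
theorem cq37 : chkq 37 = true := by decide +kernel
theorem cq38 : chkq 38 = true := by decide +kernel
theorem cq39 : chkq 39 = true := by decide +kernel
theorem cq40 : chkq 40 = true := by decide +kernel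
theorem cq41 : chkq 41 = true := by decide +kernel
theorem cq42 : chkq 42 = true := by decide +kernel
theorem cq43 : chkq 43 = true := by decide +kernel
theorem cq44 : chkq 44 = true := by decide +kernel
theorem cq45 : chkq 45 = true := by decide +kernel
theorem cq46 : chkq 46 = true := by decide +kernel
theorem cq47 : chkq 47 = true := by decide +kernel

end Pool.Agent.H63.MT
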