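import Pool.Agent.H63.MT.TabP

set_option autoImplicit false
set_option maxRecDepth 100000

namespace Pool.Agent.H63.MT

open Pool.Agent.H63.MG

theorem cq48 : chkq 48 = true := by decide +kernel
theorem cq49 : chkq 49 = true := by decide +kernel
theorem cq50 : chkq 50 = true := by decide +kernel
theorem cq51 : chkq 51 = true := by decide +kernel
theorem cq52 : chkq 52 = true := by decide +kernel
theorem cq53 : chkq 53 = true := by decide +kernel
theorem cq54 : chkq 54 = true := by decide +kernel
theorem cq55 : chkq 55 = true := by decide +kernel
theorem cq56 : chkq 56 = true := by decide +kernel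
theorem cq57 : chkq 57 = true := by decide +kernel
theorem cq58 : chkq 58 = true := by decide +kernel
theorem cq59 : chkq 59 = true := by decide +kernel
theorem cq60 : chkq 60 = true := by decide +kernel
theorem cq61 : chkq 61 = true := by decide +kernel
theorem cq62 : chkq 62 = true := by decide +kernel
theorem cq63 : chkq 63 = true := by decide +kernel

end Pool.Agent.H63.MT
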