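import Pool.Agent.H63.MT.Psd
import Pool.Agent.H63.MT.ChkQ0
import Pool.Agent.H63.MT.ChkQ1
import Pool.Agent.H63.MT.ChkQ2
import Pool.Agent.H63.MT.ChkQ3
import Pool.Agent.H63.MT.ChkD0
import Pool.Agent.H63.MT.ChkD1
import Pool.Agent.H63.MT.ChkD2
import Pool.Agent.H63.MT.ChkD3
import Pool.Agent.H63.MT.ChkD4
import Pool.Agent.H63.MT.ChkD5
import Pool.Agent.H63.MT.ChkD6
import Pool.Agent.H63.MT.ChkD7
import Pool.Agent.H63.MT.ChkD8
import Pool.Agent.H63.MT.ChkD9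
import Pool.Agent.H63.MT.ChkD10
import Pool.Agent.H63.MT.ChkD11
import Pool.Agent.H63.MT.ChkD12
import Pool.Agent.H63.MT.ChkD13
import Pool.Agent.H63.MT.ChkD14
import Pool.Agent.H63.MT.ChkD15

/-! The two families of quadratic forms of the certificate. -/

set_option autoImplicit false
set_option maxRecDepth 100000
open Finset

namespace Pool.Agent.H63.MT

open Pool.Agent.H63.MG

theorem sc_pos {t : ℕ} (h : t < 16) : 0 < sc t := by
  interval_cases t <;> decide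

theorem chkd_all (t : ℕ) (h0 : chkd t 0 = true) (h1 : chkd t 13 = true) (h2 : chkd t 26 = true)
    (h3 : chkd t 39 = true) (h4 : chkd t 52 = true) : ∀ a < 65, dom t a = true := by
  have key : ∀ a0, chkd t a0 = true → ∀ a < 13, dom t (a0 + a) = true :=
    fun a0 h a ha => nall_true h a ha
  intro a ha
  rcases (by omega : a < 13 ∨ (13 ≤ a ∧ a < 26) ∨ (26 ≤ a ∧ a < 39) ∨ (39 ≤ a ∧ a < 52) ∨
    (52 ≤ a ∧ a < 65)) with h | h | h | h | h
  · have := key 0 h0 a h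
    rwa [Nat.zero_add] at this
  · have := key 13 h1 (a - 13) (by omega)
    rwa [show 13 + (a - 13) = a by omega] at this
  · have := key 26 h2 (a - 26) (by omega)
    rwa [show 26 + (a - 26) = a by omega] at this
  · have := key 39 h3 (a - 39) (by omega)
    rwa [show 39 + (a - 39) = a by omega] at this
  · have := key 52 h4 (a - 52) (by omega)
    rwa [show 52 + (a - 52) = a by omega] at this

theorem cd0_all : ∀ a < 65, dom 0 a = true :=
  chkd_all 0 cd0_0 cd0_1 cd0_2 cd0_3 cd0_4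
theorem cd1_all : ∀ a < 65, dom 1 a = true :=
  chkd_all 1 cd1_0 cd1_1 cd1_2 cd1_3 cd1_4
theorem cd2_all : ∀ a < 65, dom 2 a = true :=
  chkd_all 2 cd2_0 cd2_1 cd2_2 cd2_3 cd2_4
theorem cd3_all : ∀ a < 65, dom 3 a = true :=
  chkd_all 3 cd3_0 cd3_1 cd3_2 cd3_3 cd3_4
theorem cd4_all : ∀ a < 65, dom 4 a = true :=
  chkd_all 4 cd4_0 cd4_1 cd4_2 cd4_3 cd4_4
theorem cd5_all : ∀ a < 65, dom 5 a = true :=
  chkd_all 5 cd5_0 cd5_1 cd5_2 cd5_3 cd5_4
theorem cd6_all : ∀ a < 65, dom 6 a = true :=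
  chkd_all 6 cd6_0 cd6_1 cd6_2 cd6_3 cd6_4
theorem cd7_all : ∀ a < 65, dom 7 a = true :=
  chkd_all 7 cd7_0 cd7_1 cd7_2 cd7_3 cd7_4
theorem cd8_all : ∀ a < 65, dom 8 a = true :=
  chkd_all 8 cd8_0 cd8_1 cd8_2 cd8_3 cd8_4
theorem cd9_all : ∀ a < 65, dom 9 a = true :=
  chkd_all 9 cd9_0 cd9_1 cd9_2 cd9_3 cd9_4
theorem cd10_all : ∀ a < 65, dom 10 a = true :=
  chkd_all 10 cd10_0 cd10_1 cd10_2 cd10_3 cd10_4
theorem cd11_all : ∀ a < 65, dom 11 a = true :=
  chkd_all 11 cd11_0 cd11_1 cd11_2 cd11_3 cd11_4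
theorem cd12_all : ∀ a < 65, dom 12 a = true :=
  chkd_all 12 cd12_0 cd12_1 cd12_2 cd12_3 cd12_4
theorem cd13_all : ∀ a < 65, dom 13 a = true :=
  chkd_all 13 cd13_0 cd13_1 cd13_2 cd13_3 cd13_4
theorem cd14_all : ∀ a < 65, dom 14 a = true :=
  chkd_all 14 cd14_0 cd14_1 cd14_2 cd14_3 cd14_4
theorem cd15_all : ∀ a < 65, dom 15 a = true :=
  chkd_all 15 cd15_0 cd15_1 cd15_2 cd15_3 cd15_4

theorem G_psd {t : ℕ} (h : t < 16) (z : ℕ → ℝ) :
    0 ≤ ∑ a ∈ range 65, ∑ b ∈ range 65, z a * z b * ((gt t a b : ℝ) - 67108864) := by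
  have hp := sc_pos h
  interval_cases t
  exacts [g_psd 0 cd0_all cs0 hp z,
    g_psd 1 cd1_all cs1 hp z,
    g_psd 2 cd2_all cs2 hp z,
    g_psd 3 cd3_all cs3 hp z,
    g_psd 4 cd4_all cs4 hp z,
    g_psd 5 cd5_all cs5 hp z,
    g_psd 6 cd6_all cs6 hp z,
    g_psd 7 cd7_all cs7 hp z,
    g_psd 8 cd8_all cs8 hp z,
    g_psd 9 cd9_all cs9 hp z,
    g_psd 10 cd10_all cs10 hp z,
    g_psd 11 cd11_all cs11 hp z,
    g_psd 12 cd12_all cs12 hp z,
    g_psd 13 cd13_all cs13 hp z,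
    g_psd 14 cd14_all cs14 hp z,
    g_psd 15 cd15_all cs15 hp z]

theorem chkq_all {c : ℕ} (h : c < 64) : chkq c = true := by
  interval_cases c
  exacts [cq0, cq1, cq2, cq3, cq4, cq5, cq6, cq7, cq8, cq9, cq10, cq11, cq12, cq13, cq14, cq15,
    cq16, cq17, cq18, cq19, cq20, cq21, cq22, cq23, cq24, cq25, cq26, cq27, cq28, cq29, cq30,
    cq31, cq32, cq33, cq34, cq35, cq36, cq37, cq38, cq39, cq40, cq41, cq42, cq43, cq44, cq45,
    cq46, cq47, cq48, cq49, cq50, cq51, cq52, cq53, cq54, cq55, cq56, cq57, cq58, cq59, cq60,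
    cq61, cq62, cq63]

/-- the coefficients of an attachment -/
noncomputable def uc (c i a : ℕ) : ℝ := if a = ti c i then 1 else 0

theorem ti_lt {c i : ℕ} (hc : c < 65) (hi : i < 64) : ty c < 16 ∧ ti c i < 65 := by
  have h := nall_true cti c hc
  rw [Bool.and_eq_true] at h
  have h1 : Nat.blt (ty c) 16 = true := h.1
  have h2 : Nat.blt (ti c i) 65 = true := nall_true h.2 i hi
  exact ⟨by simpa [Nat.blt] using h1, by simpa [Nat.blt] using h2⟩

theorem pick (g : ℕ → ℕ → ℝ) {x y : ℕ} (hx : x < 65) (hy : y < 65) :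
    ∑ a ∈ range 65, ∑ b ∈ range 65, (if a = x then (1 : ℝ) else 0) * (if b = y then 1 else 0) *
      g a b = g x y := by
  rw [sum_eq_single x]
  · rw [sum_eq_single y]
    · rw [if_pos rfl, if_pos rfl]
      ring
    · intro b _ hb
      rw [if_neg hb]
      ring
    · intro hb
      exact absurd (mem_range.mpr hy) hb
  · intro a _ ha
    refine sum_eq_zero fun b _ => ?_
    rw [if_neg ha]
    ring
  · intro hb
    exact absurd (mem_range.mpr hx) hb

theorem q3_eq {c i j : ℕ} (hc : c < 64) (hi : i < 64) (hj : j < 64) :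
    (q3 c i j : ℝ) = 67108864 - 3145728 * (tc c : ℝ) +
      ∑ a ∈ range 65, ∑ b ∈ range 65, uc c i a * uc c j b * ((gt (ty c) a b : ℝ) - 67108864) := by
  have h : cq c i j = true := nall_true (nall_true (chkq_all hc) i hi) j hj
  have h2 := Nat.eq_of_beq_eq_true h
  simp only [Nat.add_eq, Nat.mul_eq] at h2
  have h3 : ((q3 c i j + 3145728 * tc c : ℕ) : ℝ) =
      ((gt (ty c) (ti c i) (ti c j) : ℕ) : ℝ) := by exact_mod_cast h2
  push_cast at h3
  unfold uc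
  rw [pick (fun a b => (gt (ty c) a b : ℝ) - 67108864) (ti_lt (by omega) hi).2
    (ti_lt (by omega) hj).2]
  linarith

theorem q1_eq {i j : ℕ} (hi : i < 64) (hj : j < 64) :
    (q1 i j : ℝ) = 67108864 +
      ∑ a ∈ range 65, ∑ b ∈ range 65, uc 64 i a * uc 64 j b * ((gt 15 a b : ℝ) - 67108864) := by
  have h : cu i j = true := nall_true (nall_true cuu i hi) j hj
  have h2 := Nat.eq_of_beq_eq_true h
  have h3 : ((q1 i j : ℕ) : ℝ) = ((gt 15 (ti 64 i) (ti 64 j) : ℕ) : ℝ) := by exact_mod_cast h2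
  unfold uc
  rw [pick (fun a b => (gt 15 a b : ℝ) - 67108864) (ti_lt (by omega) hi).2
    (ti_lt (by omega) hj).2]
  linarith

theorem form_gen {V : Type} [Fintype V] (w : V → ℝ) (h1 : ∑ v, w v = 1) (O : ℝ)
    (G : ℕ → ℕ → ℝ) (u : V → ℕ → ℝ) (Q : V → V → ℝ)
    (hG : ∀ z : ℕ → ℝ, 0 ≤ ∑ a ∈ range 65, ∑ b ∈ range 65, z a * z b * G a b)
    (hQ : ∀ d e, Q d e = O + ∑ a ∈ range 65, ∑ b ∈ range 65, u d a * u e b * G a b) :
    O ≤ ∑ d, ∑ e, w d * w e * Q d e := by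
  have p := psd_of_G 65 G hG w u
  have e1 : ∑ d, ∑ e, w d * w e * Q d e =
      O + ∑ d, ∑ e, w d * w e * ∑ a ∈ range 65, ∑ b ∈ range 65, u d a * u e b * G a b := by
    have s1 : O = ∑ d, ∑ e, w d * w e * O := by
      have : ∀ d, ∑ e, w d * w e * O = w d * O := by
        intro d
        rw [← sum_mul, ← mul_sum, h1, mul_one]
      rw [sum_congr rfl fun d _ => this d, ← sum_mul, h1, one_mul]
    nth_rewrite 1 [s1]
    rw [← sum_add_distrib]
    refine sum_congr rfl fun d _ => ?_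
    rw [← sum_add_distrib]
    refine sum_congr rfl fun e _ => ?_
    rw [hQ]
    ring
  rw [e1]
  linarith

/-- the form of a labelled triple -/
theorem form3 {c : ℕ} (hc : c < 64) {V : Type} [Fintype V] (w : V → ℝ) (h1 : ∑ v, w v = 1)
    (i : V → ℕ) (hi : ∀ v, i v < 64) :
    67108864 - 3145728 * (tc c : ℝ) ≤ ∑ d, ∑ e, w d * w e * (q3 c (i d) (i e) : ℝ) :=
  form_gen w h1 _ (fun a b => (gt (ty c) a b : ℝ) - 67108864) (fun d a => uc c (i d) a) _
    (G_psd (ti_lt (by omega) (by norm_num : 0 < 64)).1) fun d e => q3_eq hc (hi d) (hi e)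

theorem form1 {W : Type} [Fintype W] (w : W → ℝ) (h1 : ∑ v, w v = 1)
    (i : W → ℕ) (hi : ∀ v, i v < 64) :
    67108864 ≤ ∑ d, ∑ e, w d * w e * (q1 (i d) (i e) : ℝ) :=
  form_gen w h1 _ (fun a b => (gt 15 a b : ℝ) - 67108864) (fun d a => uc 64 (i d) a) _
    (G_psd (by norm_num)) fun d e => q1_eq (hi d) (hi e)

end Pool.Agent.H63.MT
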