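import Pool.Agent.H63.MT.Core
import Pool.Agent.H63.MT.Flag
import Pool.Agent.H63.MT.ChkB
import Pool.Agent.H63.MT.ChkA00
import Pool.Agent.H63.MT.ChkA01
import Pool.Agent.H63.MT.ChkA02
import Pool.Agent.H63.MT.ChkA03
import Pool.Agent.H63.MT.ChkA10
import Pool.Agent.H63.MT.ChkA11
import Pool.Agent.H63.MT.ChkA12
import Pool.Agent.H63.MT.ChkA13
import Pool.Agent.H63.MT.ChkA20
import Pool.Agent.H63.MT.ChkA21
import Pool.Agent.H63.MT.ChkA22
import Pool.Agent.H63.MT.ChkA23
import Pool.Agent.H63.MT.ChkA30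
import Pool.Agent.H63.MT.ChkA31
import Pool.Agent.H63.MT.ChkA32
import Pool.Agent.H63.MT.ChkA33

/-! The inequality for relations closed under transitive blow-ups. -/

set_option autoImplicit false
set_option maxRecDepth 100000
open Finset

namespace Pool.Agent.H63.MT

open Pool.Agent.H63.MG (Pr cd c3 c4 tc tf Cl nall_true A4_true Pr_lt cd_lt psumw convw sum1 TF not_inj_card Good)

section
attribute [local irreducible] bt leaf
attribute [local irreducible] Pool.Agent.H63.MG.tf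

theorem nb {n : ℕ} {x : Bool} (hn : n = 0) (hx : or (Nat.beq n 1) x = true) : x = true := by
  subst hn
  exact hx

theorem leaf_le (d01 e01 d02 e02 d03 e03 d04 e04 d12 e12 d13 e13 d14 e14 d23 e23 d24 e24 d34 e34 : ℕ) (h01 : Pr d01 e01) (h02 : Pr d02 e02) (h03 : Pr d03 e03) (h04 : Pr d04 e04) (h12 : Pr d12 e12) (h13 : Pr d13 e13) (h14 : Pr d14 e14) (h23 : Pr d23 e23) (h24 : Pr d24 e24) (h34 : Pr d34 e34)
    (z0 : bt d01 d02 d03 d12 d13 d23 = 0) (z1 : bt d01 d02 d04 d12 d14 d24 = 0)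
    (z2 : bt d01 d03 d04 d13 d14 d34 = 0) (z3 : bt d02 d03 d04 d23 d24 d34 = 0)
    (z4 : bt d12 d13 d14 d23 d24 d34 = 0)
    (hf : tf d01 d02 d03 d04 d12 d13 d14 d23 d24 d34 = false) :
    leaf d01 e01 d02 e02 d03 e03 d04 e04 d12 e12 d13 e13 d14 e14 d23 e23 d24 e24 d34 e34 ≤ 1669863230 := by
  have hc : chk d01 e01 d02 e02 d12 e12 d03 e03 = true := by
    rcases h01 with ⟨rfl, rfl⟩ | ⟨rfl, rfl⟩ | ⟨rfl, rfl⟩ | ⟨rfl, rfl⟩ <;>
    rcases h02 with ⟨rfl, rfl⟩ | ⟨rfl, rfl⟩ | ⟨rfl, rfl⟩ | ⟨rfl, rfl⟩ <;>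
    rcases h12 with ⟨rfl, rfl⟩ | ⟨rfl, rfl⟩ | ⟨rfl, rfl⟩ | ⟨rfl, rfl⟩ <;>
    rcases h03 with ⟨rfl, rfl⟩ | ⟨rfl, rfl⟩ | ⟨rfl, rfl⟩ | ⟨rfl, rfl⟩
    exacts [ck0000,
      ck0001,
      ck0002,
      ck0003,
      ck0010,
      ck0011,
      ck0012,
      ck0013,
      ck0020,
      ck0021,
      ck0022,
      ck0023,
      ck0030,
      ck0031,
      ck0032,
      ck0033,
      ck0100,
      ck0101,
      ck0102,
      ck0103,
      ck0110,
      ck0111,
      ck0112,
      ck0113,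
      ck0120,
      ck0121,
      ck0122,
      ck0123,
      ck0130,
      ck0131,
      ck0132,
      ck0133,
      ck0200,
      ck0201,
      ck0202,
      ck0203,
      ck0210,
      ck0211,
      ck0212,
      ck0213,
      ck0220,
      ck0221,
      ck0222,
      ck0223,
      ck0230,
      ck0231,
      ck0232,
      ck0233,
      ck0300,
      ck0301,
      ck0302,
      ck0303,
      ck0310,
      ck0311,
      ck0312,
      ck0313,
      ck0320,
      ck0321,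
      ck0322,
      ck0323,
      ck0330,
      ck0331,
      ck0332,
      ck0333,
      ck1000,
      ck1001,
      ck1002,
      ck1003,
      ck1010,
      ck1011,
      ck1012,
      ck1013,
      ck1020,
      ck1021,
      ck1022,
      ck1023,
      ck1030,
      ck1031,
      ck1032,
      ck1033,
      ck1100,
      ck1101,
      ck1102,
      ck1103,
      ck1110,
      ck1111,
      ck1112,
      ck1113,
      ck1120,
      ck1121,
      ck1122,
      ck1123,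
      ck1130,
      ck1131,
      ck1132,
      ck1133,
      ck1200,
      ck1201,
      ck1202,
      ck1203,
      ck1210,
      ck1211,
      ck1212,
      ck1213,
      ck1220,
      ck1221,
      ck1222,
      ck1223,
      ck1230,
      ck1231,
      ck1232,
      ck1233,
      ck1300,
      ck1301,
      ck1302,
      ck1303,
      ck1310,
      ck1311,
      ck1312,
      ck1313,
      ck1320,
      ck1321,
      ck1322,
      ck1323,
      ck1330,
      ck1331,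
      ck1332,
      ck1333,
      ck2000,
      ck2001,
      ck2002,
      ck2003,
      ck2010,
      ck2011,
      ck2012,
      ck2013,
      ck2020,
      ck2021,
      ck2022,
      ck2023,
      ck2030,
      ck2031,
      ck2032,
      ck2033,
      ck2100,
      ck2101,
      ck2102,
      ck2103,
      ck2110,
      ck2111,
      ck2112,
      ck2113,
      ck2120,
      ck2121,
      ck2122,
      ck2123,
      ck2130,
      ck2131,
      ck2132,
      ck2133,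
      ck2200,
      ck2201,
      ck2202,
      ck2203,
      ck2210,
      ck2211,
      ck2212,
      ck2213,
      ck2220,
      ck2221,
      ck2222,
      ck2223,
      ck2230,
      ck2231,
      ck2232,
      ck2233,
      ck2300,
      ck2301,
      ck2302,
      ck2303,
      ck2310,
      ck2311,
      ck2312,
      ck2313,
      ck2320,
      ck2321,
      ck2322,
      ck2323,
      ck2330,
      ck2331,
      ck2332,
      ck2333,
      ck3000,
      ck3001,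
      ck3002,
      ck3003,
      ck3010,
      ck3011,
      ck3012,
      ck3013,
      ck3020,
      ck3021,
      ck3022,
      ck3023,
      ck3030,
      ck3031,
      ck3032,
      ck3033,
      ck3100,
      ck3101,
      ck3102,
      ck3103,
      ck3110,
      ck3111,
      ck3112,
      ck3113,
      ck3120,
      ck3121,
      ck3122,
      ck3123,
      ck3130,
      ck3131,
      ck3132,
      ck3133,
      ck3200,
      ck3201,
      ck3202,
      ck3203,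
      ck3210,
      ck3211,
      ck3212,
      ck3213,
      ck3220,
      ck3221,
      ck3222,
      ck3223,
      ck3230,
      ck3231,
      ck3232,
      ck3233,
      ck3300,
      ck3301,
      ck3302,
      ck3303,
      ck3310,
      ck3311,
      ck3312,
      ck3313,
      ck3320,
      ck3321,
      ck3322,
      ck3323,
      ck3330,
      ck3331,
      ck3332,
      ck3333]
  unfold chk at hc
  have h1 : chkin d01 e01 d02 e02 d12 e12 d03 e03 d13 e13 d23 e23 = true :=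
    A4_true (A4_true hc h13) h23
  unfold chkin at h1
  have h2 := A4_true (A4_true (A4_true (nb z0 h1) h04) h14) h24
  have h3 := A4_true (nb z1 h2) h34
  have h4 := nb z4 (nb z3 (nb z2 h3))
  rw [hf] at h4
  exact Nat.le_of_ble_eq_true h4

end

section
variable {V : Type} (rel : V → V → ℕ)

def F3 (a b c d e : V) : ℕ := q3 (c3 rel a b c) (c4 rel a b c d) (c4 rel a b c e)
def F1 (a b c d e : V) : ℕ := q1 (c3 rel a b c) (c3 rel a d e)

variable {rel}

theorem bt_zero (hrel : ∀ x y, Pr (rel x y) (rel y x)) (hcl : Cl (rT rel))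
    (a b c d : V) (hab : a ≠ b) (hac : a ≠ c) (had : a ≠ d) (hbc : b ≠ c) (hbd : b ≠ d)
    (hcd : c ≠ d) :
    bt (rel a b) (rel a c) (rel a d) (rel b c) (rel b d) (rel c d) = 0 := by
  have hl : ∀ x y, rel x y < 4 := fun x y => Pr_lt (hrel x y)
  have h := nall_true (nall_true (nall_true (nall_true (nall_true (nall_true cbb _ (hl a b)) _
    (hl a c)) _ (hl a d)) _ (hl b c)) _ (hl b d)) _ (hl c d)
  rw [Bool.or_eq_true] at h
  rcases h with h | h
  · exact Nat.eq_of_beq_eq_true h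
  exfalso
  unfold anytf at h
  simp only [Bool.or_eq_true] at h
  rcases h with h | h | h | h | h | h | h | h | h | h | h | h | h | h | h | h
  · have h2 := hcl a a b b c
    simp only [rT_self, rT_ne rel hab, rT_ne rel hac, rT_ne rel had, rT_ne rel hbc, rT_ne rel hbd, rT_ne rel hcd] at h2
    exact Bool.false_ne_true (h2.symm.trans h)
  · have h2 := hcl a a b b d
    simp only [rT_self, rT_ne rel hab, rT_ne rel hac, rT_ne rel had, rT_ne rel hbc, rT_ne rel hbd, rT_ne rel hcd] at h2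
    exact Bool.false_ne_true (h2.symm.trans h)
  · have h2 := hcl a a b c c
    simp only [rT_self, rT_ne rel hab, rT_ne rel hac, rT_ne rel had, rT_ne rel hbc, rT_ne rel hbd, rT_ne rel hcd] at h2
    exact Bool.false_ne_true (h2.symm.trans h)
  · have h2 := hcl a a b c d
    simp only [rT_self, rT_ne rel hab, rT_ne rel hac, rT_ne rel had, rT_ne rel hbc, rT_ne rel hbd, rT_ne rel hcd] at h2
    exact Bool.false_ne_true (h2.symm.trans h)
  · have h2 := hcl a a b d d
    simp only [rT_self, rT_ne rel hab, rT_ne rel hac, rT_ne rel had, rT_ne rel hbc, rT_ne rel hbd, rT_ne rel hcd] at h2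
    exact Bool.false_ne_true (h2.symm.trans h)
  · have h2 := hcl a a c c d
    simp only [rT_self, rT_ne rel hab, rT_ne rel hac, rT_ne rel had, rT_ne rel hbc, rT_ne rel hbd, rT_ne rel hcd] at h2
    exact Bool.false_ne_true (h2.symm.trans h)
  · have h2 := hcl a a c d d
    simp only [rT_self, rT_ne rel hab, rT_ne rel hac, rT_ne rel had, rT_ne rel hbc, rT_ne rel hbd, rT_ne rel hcd] at h2
    exact Bool.false_ne_true (h2.symm.trans h)
  · have h2 := hcl a b b c c
    simp only [rT_self, rT_ne rel hab, rT_ne rel hac, rT_ne rel had, rT_ne rel hbc, rT_ne rel hbd, rT_ne rel hcd] at h2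
    exact Bool.false_ne_true (h2.symm.trans h)
  · have h2 := hcl a b b c d
    simp only [rT_self, rT_ne rel hab, rT_ne rel hac, rT_ne rel had, rT_ne rel hbc, rT_ne rel hbd, rT_ne rel hcd] at h2
    exact Bool.false_ne_true (h2.symm.trans h)
  · have h2 := hcl a b b d d
    simp only [rT_self, rT_ne rel hab, rT_ne rel hac, rT_ne rel had, rT_ne rel hbc, rT_ne rel hbd, rT_ne rel hcd] at h2
    exact Bool.false_ne_true (h2.symm.trans h)
  · have h2 := hcl a b c c d
    simp only [rT_self, rT_ne rel hab, rT_ne rel hac, rT_ne rel had, rT_ne rel hbc, rT_ne rel hbd, rT_ne rel hcd] at h2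
    exact Bool.false_ne_true (h2.symm.trans h)
  · have h2 := hcl a b c d d
    simp only [rT_self, rT_ne rel hab, rT_ne rel hac, rT_ne rel had, rT_ne rel hbc, rT_ne rel hbd, rT_ne rel hcd] at h2
    exact Bool.false_ne_true (h2.symm.trans h)
  · have h2 := hcl a c c d d
    simp only [rT_self, rT_ne rel hab, rT_ne rel hac, rT_ne rel had, rT_ne rel hbc, rT_ne rel hbd, rT_ne rel hcd] at h2
    exact Bool.false_ne_true (h2.symm.trans h)
  · have h2 := hcl b b c c d
    simp only [rT_self, rT_ne rel hab, rT_ne rel hac, rT_ne rel had, rT_ne rel hbc, rT_ne rel hbd, rT_ne rel hcd] at h2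
    exact Bool.false_ne_true (h2.symm.trans h)
  · have h2 := hcl b b c d d
    simp only [rT_self, rT_ne rel hab, rT_ne rel hac, rT_ne rel had, rT_ne rel hbc, rT_ne rel hbd, rT_ne rel hcd] at h2
    exact Bool.false_ne_true (h2.symm.trans h)
  · have h2 := hcl b c c d d
    simp only [rT_self, rT_ne rel hab, rT_ne rel hac, rT_ne rel had, rT_ne rel hbc, rT_ne rel hbd, rT_ne rel hcd] at h2
    exact Bool.false_ne_true (h2.symm.trans h)

/-- the total over the 10 triples and the 15 splittings of five vertices -/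
def Leaf (rel : V → V → ℕ) (x : Fin 5 → V) : ℕ :=
  (F3 rel (x 0) (x 1) (x 2) (x 3) (x 4) +
      (F3 rel (x 0) (x 1) (x 3) (x 2) (x 4) +
      (F3 rel (x 0) (x 1) (x 4) (x 2) (x 3) +
      (F3 rel (x 0) (x 2) (x 3) (x 1) (x 4) +
      (F3 rel (x 0) (x 2) (x 4) (x 1) (x 3) +
      (F3 rel (x 0) (x 3) (x 4) (x 1) (x 2) +
      (F3 rel (x 1) (x 2) (x 3) (x 0) (x 4) +
      (F3 rel (x 1) (x 2) (x 4) (x 0) (x 3) +
      (F3 rel (x 1) (x 3) (x 4) (x 0) (x 2) +
      F3 rel (x 2) (x 3) (x 4) (x 0) (x 1))))))))))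
    + (F1 rel (x 0) (x 1) (x 2) (x 3) (x 4) +
      (F1 rel (x 0) (x 1) (x 3) (x 2) (x 4) +
      (F1 rel (x 0) (x 1) (x 4) (x 2) (x 3) +
      (F1 rel (x 1) (x 0) (x 2) (x 3) (x 4) +
      (F1 rel (x 1) (x 0) (x 3) (x 2) (x 4) +
      (F1 rel (x 1) (x 0) (x 4) (x 2) (x 3) +
      (F1 rel (x 2) (x 0) (x 1) (x 3) (x 4) +
      (F1 rel (x 2) (x 0) (x 3) (x 1) (x 4) +
      (F1 rel (x 2) (x 0) (x 4) (x 1) (x 3) +
      (F1 rel (x 3) (x 0) (x 1) (x 2) (x 4) +
      (F1 rel (x 3) (x 0) (x 2) (x 1) (x 4) +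
      (F1 rel (x 3) (x 0) (x 4) (x 1) (x 2) +
      (F1 rel (x 4) (x 0) (x 1) (x 2) (x 3) +
      (F1 rel (x 4) (x 0) (x 2) (x 1) (x 3) +
      F1 rel (x 4) (x 0) (x 3) (x 1) (x 2)))))))))))))))

theorem Leaf_le (hrel : ∀ x y, Pr (rel x y) (rel y x)) (hcl : Cl (rT rel))
    (x : Fin 5 → V) (hx : Function.Injective x) : Leaf rel x ≤ 1669863230 := by
  have n01 : x 0 ≠ x 1 := fun h => absurd (hx h) (by decide)
  have n02 : x 0 ≠ x 2 := fun h => absurd (hx h) (by decide)
  have n03 : x 0 ≠ x 3 := fun h => absurd (hx h) (by decide)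
  have n04 : x 0 ≠ x 4 := fun h => absurd (hx h) (by decide)
  have n12 : x 1 ≠ x 2 := fun h => absurd (hx h) (by decide)
  have n13 : x 1 ≠ x 3 := fun h => absurd (hx h) (by decide)
  have n14 : x 1 ≠ x 4 := fun h => absurd (hx h) (by decide)
  have n23 : x 2 ≠ x 3 := fun h => absurd (hx h) (by decide)
  have n24 : x 2 ≠ x 4 := fun h => absurd (hx h) (by decide)
  have n34 : x 3 ≠ x 4 := fun h => absurd (hx h) (by decide)
  refine leaf_le (rel (x 0) (x 1)) (rel (x 1) (x 0)) (rel (x 0) (x 2)) (rel (x 2) (x 0)) (rel (x 0) (x 3)) (rel (x 3) (x 0)) (rel (x 0) (x 4)) (rel (x 4) (x 0)) (rel (x 1) (x 2)) (rel (x 2) (x 1)) (rel (x 1) (x 3)) (rel (x 3) (x 1)) (rel (x 1) (x 4)) (rel (x 4) (x 1)) (rel (x 2) (x 3)) (rel (x 3) (x 2)) (rel (x 2) (x 4)) (rel (x 4) (x 2)) (rel (x 3) (x 4)) (rel (x 4) (x 3))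
    (hrel _ _) (hrel _ _) (hrel _ _) (hrel _ _) (hrel _ _) (hrel _ _) (hrel _ _) (hrel _ _) (hrel _ _) (hrel _ _)
    (bt_zero hrel hcl _ _ _ _ n01 n02 n03 n12 n13 n23) (bt_zero hrel hcl _ _ _ _ n01 n02 n04 n12 n14 n24)
    (bt_zero hrel hcl _ _ _ _ n01 n03 n04 n13 n14 n34) (bt_zero hrel hcl _ _ _ _ n02 n03 n04 n23 n24 n34)
    (bt_zero hrel hcl _ _ _ _ n12 n13 n14 n23 n24 n34) ?_
  have h := hcl (x 0) (x 1) (x 2) (x 3) (x 4)
  simp only [rT_ne rel n01, rT_ne rel n02, rT_ne rel n03, rT_ne rel n04, rT_ne rel n12, rT_ne rel n13, rT_ne rel n14, rT_ne rel n23, rT_ne rel n24, rT_ne rel n34] at h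
  exact h

end

variable {V : Type} [Fintype V] {rel : V → V → ℕ}

theorem lower3 (hrel : ∀ x y, Pr (rel x y) (rel y x)) (w : V → ℝ) (hw : ∀ v, 0 ≤ w v)
    (h1 : ∑ v, w v = 1) :
    67108864 - 3145728 * (∑ a, ∑ b, ∑ c, w a * w b * w c * (tc (c3 rel a b c) : ℝ))
      ≤ ∑ x : Fin 5 → V, (∏ i, w (x i)) * (F3 rel (x 0) (x 1) (x 2) (x 3) (x 4) : ℝ) := by
  have hl : ∀ x y, rel x y < 4 := fun x y => Pr_lt (hrel x y)
  rw [convw w (fun a b c d e => (F3 rel a b c d e : ℝ))]
  have e1 : 67108864 - 3145728 * (∑ a, ∑ b, ∑ c, w a * w b * w c * (tc (c3 rel a b c) : ℝ))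
      = ∑ a, ∑ b, ∑ c, w a * (w b * (w c * (67108864 - 3145728 * (tc (c3 rel a b c) : ℝ)))) := by
    have hO : (67108864 : ℝ) = ∑ a, ∑ b, ∑ c, w a * (w b * (w c * (67108864 : ℝ))) := by
      simp only [← mul_sum, sum1 w h1]
    nth_rewrite 1 [hO]
    rw [mul_sum, ← sum_sub_distrib]
    refine sum_congr rfl fun a _ => ?_
    rw [mul_sum, ← sum_sub_distrib]
    refine sum_congr rfl fun b _ => ?_
    rw [mul_sum, ← sum_sub_distrib]
    exact sum_congr rfl fun c _ => by ring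
  rw [e1]
  refine sum_le_sum fun a _ => sum_le_sum fun b _ => sum_le_sum fun c _ => ?_
  have p := form3 (c := c3 rel a b c) (cd_lt (hl _ _) (hl _ _) (hl _ _)) w h1
    (fun d => c4 rel a b c d) (fun d => cd_lt (hl _ _) (hl _ _) (hl _ _))
  have e3 : ∑ d, ∑ e, w a * w b * w c * w d * w e * (F3 rel a b c d e : ℝ)
      = w a * (w b * (w c * ∑ d, ∑ e, w d * w e *
        (q3 (c3 rel a b c) (c4 rel a b c d) (c4 rel a b c e) : ℝ))) := by
    simp only [mul_sum]
    exact sum_congr rfl fun d _ => sum_congr rfl fun e _ => by unfold F3; ring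
  rw [e3]
  exact mul_le_mul_of_nonneg_left (mul_le_mul_of_nonneg_left
    (mul_le_mul_of_nonneg_left p (hw c)) (hw b)) (hw a)

theorem lower1 (hrel : ∀ x y, Pr (rel x y) (rel y x)) (w : V → ℝ) (hw : ∀ v, 0 ≤ w v)
    (h1 : ∑ v, w v = 1) :
    (67108864 : ℝ) ≤ ∑ x : Fin 5 → V, (∏ i, w (x i)) * (F1 rel (x 0) (x 1) (x 2) (x 3) (x 4) : ℝ) := by
  have hl : ∀ x y, rel x y < 4 := fun x y => Pr_lt (hrel x y)
  rw [convw w (fun a b c d e => (F1 rel a b c d e : ℝ))]
  have hO : (67108864 : ℝ) = ∑ a, w a * (67108864 : ℝ) := (sum1 w h1 _).symm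
  rw [hO]
  refine sum_le_sum fun a _ => ?_
  have p := form1 (W := V × V) (fun q => w q.1 * w q.2)
    (by
      rw [Fintype.sum_prod_type]
      simp only [← mul_sum, h1, mul_one])
    (fun q => c3 rel a q.1 q.2) (fun q => cd_lt (hl _ _) (hl _ _) (hl _ _))
  simp only [Fintype.sum_prod_type] at p
  have e3 : ∑ b, ∑ c, ∑ d, ∑ e, w a * w b * w c * w d * w e * (F1 rel a b c d e : ℝ)
      = w a * ∑ b, ∑ c, ∑ d, ∑ e, w b * w c * (w d * w e) *
        (q1 (c3 rel a b c) (c3 rel a d e) : ℝ) := by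
    simp only [mul_sum]
    exact sum_congr rfl fun b _ => sum_congr rfl fun c _ => sum_congr rfl fun d _ =>
      sum_congr rfl fun e _ => by unfold F1; ring
  rw [e3]
  exact mul_le_mul_of_nonneg_left p (hw a)

theorem q_lt (n : ℕ) (k : ℕ) : Nat.mod (Nat.shiftRight n k) 134217728 ≤ 134217728 :=
  (Nat.mod_lt _ (by norm_num)).le

theorem F3_le (a b c d e : V) : F3 rel a b c d e ≤ 134217728 := q_lt _ _
theorem F1_le (a b c d e : V) : F1 rel a b c d e ≤ 134217728 := q_lt _ _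

theorem Leaf_le_all (x : Fin 5 → V) : Leaf rel x ≤ 3355443200 := by
  unfold Leaf
  have g0 := F3_le (rel := rel) (x 0) (x 1) (x 2) (x 3) (x 4)
  have g1 := F3_le (rel := rel) (x 0) (x 1) (x 3) (x 2) (x 4)
  have g2 := F3_le (rel := rel) (x 0) (x 1) (x 4) (x 2) (x 3)
  have g3 := F3_le (rel := rel) (x 0) (x 2) (x 3) (x 1) (x 4)
  have g4 := F3_le (rel := rel) (x 0) (x 2) (x 4) (x 1) (x 3)
  have g5 := F3_le (rel := rel) (x 0) (x 3) (x 4) (x 1) (x 2)
  have g6 := F3_le (rel := rel) (x 1) (x 2) (x 3) (x 0) (x 4)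
  have g7 := F3_le (rel := rel) (x 1) (x 2) (x 4) (x 0) (x 3)
  have g8 := F3_le (rel := rel) (x 1) (x 3) (x 4) (x 0) (x 2)
  have g9 := F3_le (rel := rel) (x 2) (x 3) (x 4) (x 0) (x 1)
  have g10 := F1_le (rel := rel) (x 0) (x 1) (x 2) (x 3) (x 4)
  have g11 := F1_le (rel := rel) (x 0) (x 1) (x 3) (x 2) (x 4)
  have g12 := F1_le (rel := rel) (x 0) (x 1) (x 4) (x 2) (x 3)
  have g13 := F1_le (rel := rel) (x 1) (x 0) (x 2) (x 3) (x 4)
  have g14 := F1_le (rel := rel) (x 1) (x 0) (x 3) (x 2) (x 4)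
  have g15 := F1_le (rel := rel) (x 1) (x 0) (x 4) (x 2) (x 3)
  have g16 := F1_le (rel := rel) (x 2) (x 0) (x 1) (x 3) (x 4)
  have g17 := F1_le (rel := rel) (x 2) (x 0) (x 3) (x 1) (x 4)
  have g18 := F1_le (rel := rel) (x 2) (x 0) (x 4) (x 1) (x 3)
  have g19 := F1_le (rel := rel) (x 3) (x 0) (x 1) (x 2) (x 4)
  have g20 := F1_le (rel := rel) (x 3) (x 0) (x 2) (x 1) (x 4)
  have g21 := F1_le (rel := rel) (x 3) (x 0) (x 4) (x 1) (x 2)
  have g22 := F1_le (rel := rel) (x 4) (x 0) (x 1) (x 2) (x 3)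
  have g23 := F1_le (rel := rel) (x 4) (x 0) (x 2) (x 1) (x 3)
  have g24 := F1_le (rel := rel) (x 4) (x 0) (x 3) (x 1) (x 2)
  omega

theorem closed_sum (hrel : ∀ x y, Pr (rel x y) (rel y x))
    (w : V → ℝ) (hw : ∀ v, 0 ≤ w v) (h1 : ∑ v, w v = 1) :
    1677721600 - 31457280 * (∑ a, ∑ b, ∑ c, w a * w b * w c * (tc (c3 rel a b c) : ℝ)) ≤
      ∑ x : Fin 5 → V, (∏ i, w (x i)) * (Leaf rel x : ℝ) := by
  have L3 := lower3 hrel w hw h1
  have L1 := lower1 hrel w hw h1
  have f3 : ∀ i0 i1 i2 i3 i4 : Fin 5, Function.Bijective ![i0, i1, i2, i3, i4] →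
      ∑ x : Fin 5 → V, (∏ i, w (x i)) * (F3 rel (x i0) (x i1) (x i2) (x i3) (x i4) : ℝ)
      = ∑ x : Fin 5 → V, (∏ i, w (x i)) * (F3 rel (x 0) (x 1) (x 2) (x 3) (x 4) : ℝ) :=
    fun i0 i1 i2 i3 i4 hg =>
      psumw w (fun a b c d e => (F3 rel a b c d e : ℝ)) ![i0, i1, i2, i3, i4] hg
  have f1 : ∀ i0 i1 i2 i3 i4 : Fin 5, Function.Bijective ![i0, i1, i2, i3, i4] →
      ∑ x : Fin 5 → V, (∏ i, w (x i)) * (F1 rel (x i0) (x i1) (x i2) (x i3) (x i4) : ℝ)
      = ∑ x : Fin 5 → V, (∏ i, w (x i)) * (F1 rel (x 0) (x 1) (x 2) (x 3) (x 4) : ℝ) :=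
    fun i0 i1 i2 i3 i4 hg =>
      psumw w (fun a b c d e => (F1 rel a b c d e : ℝ)) ![i0, i1, i2, i3, i4] hg
  have e : ∑ x : Fin 5 → V, (∏ i, w (x i)) * (Leaf rel x : ℝ)
      = 10 * (∑ x : Fin 5 → V, (∏ i, w (x i)) * (F3 rel (x 0) (x 1) (x 2) (x 3) (x 4) : ℝ))
      + 15 * (∑ x : Fin 5 → V, (∏ i, w (x i)) * (F1 rel (x 0) (x 1) (x 2) (x 3) (x 4) : ℝ)) := by
    simp only [Leaf, Nat.cast_add, mul_add, sum_add_distrib]
    rw [f3 0 1 3 2 4 (by decide), f3 0 1 4 2 3 (by decide), f3 0 2 3 1 4 (by decide),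
      f3 0 2 4 1 3 (by decide), f3 0 3 4 1 2 (by decide), f3 1 2 3 0 4 (by decide),
      f3 1 2 4 0 3 (by decide), f3 1 3 4 0 2 (by decide), f3 2 3 4 0 1 (by decide),
      f1 0 1 3 2 4 (by decide), f1 0 1 4 2 3 (by decide),
      f1 1 0 2 3 4 (by decide), f1 1 0 3 2 4 (by decide), f1 1 0 4 2 3 (by decide),
      f1 2 0 1 3 4 (by decide), f1 2 0 3 1 4 (by decide), f1 2 0 4 1 3 (by decide),
      f1 3 0 1 2 4 (by decide), f1 3 0 2 1 4 (by decide), f1 3 0 4 1 2 (by decide),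
      f1 4 0 1 2 3 (by decide), f1 4 0 2 1 3 (by decide), f1 4 0 3 1 2 (by decide)]
    ring
  rw [e]
  linarith

theorem closedT (k : ℕ) (hk : 1 ≤ k) (rel : Fin k → Fin k → ℕ)
    (hrel : ∀ x y, Pr (rel x y) (rel y x)) (hcl : Cl (rT rel)) :
    (7858370 / 31457280 - 2667 / (k : ℝ)) * (k : ℝ) ^ 3
      ≤ ∑ i, ∑ j, ∑ l, (tc (c3 rel i j l) : ℝ) := by
  classical
  have hk0 : (0 : ℝ) < k := by exact_mod_cast hk
  have h := closed_sum hrel (fun _ => (1 / k : ℝ)) (fun _ => by positivity)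
    (by rw [sum_const, card_univ, Fintype.card_fin, nsmul_eq_mul]; field_simp)
  simp only [← mul_sum, prod_const, card_univ, Fintype.card_fin] at h
  have hcard : 0 < Fintype.card (Fin k) := by rw [Fintype.card_fin]; exact hk
  have hni := not_inj_card 5 hcard (univ.filter fun f : Fin 5 → Fin k => ¬ Function.Injective f)
    (fun f hf => (mem_filter.1 hf).2)
  rw [Fintype.card_fin] at hni
  have hle : ∀ x : Fin 5 → Fin k, (Leaf rel x : ℝ) ≤ 1669863230 +
      (if ¬ Function.Injective x then 3355443200 else 0) := by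
    intro x
    by_cases hx : Function.Injective x
    · rw [if_neg (not_not.2 hx), add_zero]
      exact_mod_cast Leaf_le hrel hcl x hx
    · rw [if_pos hx]
      have : (Leaf rel x : ℝ) ≤ 3355443200 := by exact_mod_cast Leaf_le_all (rel := rel) x
      linarith
  have hs : ∑ x : Fin 5 → Fin k, (Leaf rel x : ℝ) ≤ 1669863230 * (k : ℝ) ^ 5 +
      3355443200 * (((univ.filter fun f : Fin 5 → Fin k => ¬ Function.Injective f).card : ℕ) : ℝ) := by
    refine (sum_le_sum fun x _ => hle x).trans (le_of_eq ?_)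
    rw [sum_add_distrib, sum_const, card_univ, ← sum_filter, sum_const, nsmul_eq_mul, nsmul_eq_mul]
    simp only [Fintype.card_fun, Fintype.card_fin]
    push_cast
    ring
  have e5 : (1 / (k : ℝ)) ^ 5 * (k : ℝ) ^ 5 = 1 := by
    rw [← mul_pow, one_div, inv_mul_cancel₀ hk0.ne', one_pow]
  have e3 : (1 / (k : ℝ)) * (1 / k) * (1 / k) * (k : ℝ) ^ 3 = 1 := by field_simp
  set S := ∑ i, ∑ j, ∑ l, (tc (c3 rel i j l) : ℝ) with hS
  have h5 : (1 / (k : ℝ)) ^ 5 * ∑ x : Fin 5 → Fin k, (Leaf rel x : ℝ) ≤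
      1669863230 + 3355443200 * (25 / (k : ℝ)) := by
    have h6 := mul_le_mul_of_nonneg_left hs (by positivity : (0 : ℝ) ≤ (1 / (k : ℝ)) ^ 5)
    have h7 := mul_le_mul_of_nonneg_left hni
      (by positivity : (0 : ℝ) ≤ (1 / (k : ℝ)) ^ 5 * 3355443200)
    have e7 : (1 / (k : ℝ)) ^ 5 * 3355443200 * (((5 : ℕ) : ℝ) ^ 2 * (1 / (k : ℝ)) * (k : ℝ) ^ 5)
        = 3355443200 * (25 / (k : ℝ)) := by
      calc _ = ((1 / (k : ℝ)) ^ 5 * (k : ℝ) ^ 5) * (3355443200 * (25 / (k : ℝ))) := by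
            push_cast; ring
        _ = _ := by rw [e5, one_mul]
    have e8 : (1 / (k : ℝ)) ^ 5 * (1669863230 * (k : ℝ) ^ 5 + 3355443200 *
        (((univ.filter fun f : Fin 5 → Fin k => ¬ Function.Injective f).card : ℕ) : ℝ)) =
        1669863230 * ((1 / (k : ℝ)) ^ 5 * (k : ℝ) ^ 5) + (1 / (k : ℝ)) ^ 5 * 3355443200 *
        (((univ.filter fun f : Fin 5 → Fin k => ¬ Function.Injective f).card : ℕ) : ℝ) := by ring
    rw [e8, e5] at h6
    rw [e7] at h7
    linarith
  have h9 : 1677721600 - 31457280 * ((1 / (k : ℝ)) * (1 / k) * (1 / k) * S) ≤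
      1669863230 + 3355443200 * (25 / (k : ℝ)) := by
    refine le_trans (le_of_eq ?_) (h.trans h5)
    ring
  have h10 : 7858370 / 31457280 - 2667 / (k : ℝ) ≤ (1 / (k : ℝ)) * (1 / k) * (1 / k) * S := by
    have h11 : 3355443200 * (25 / (k : ℝ)) ≤ 31457280 * (2667 / (k : ℝ)) := by
      rw [mul_div_assoc', mul_div_assoc', div_le_div_iff_of_pos_right hk0]
      norm_num
    linarith
  have h12 := mul_le_mul_of_nonneg_right h10 (by positivity : (0 : ℝ) ≤ (k : ℝ) ^ 3)
  refine h12.trans (le_of_eq ?_)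
  calc (1 / (k : ℝ)) * (1 / k) * (1 / k) * S * (k : ℝ) ^ 3
      = ((1 / (k : ℝ)) * (1 / k) * (1 / k) * (k : ℝ) ^ 3) * S := by ring
    _ = S := by rw [e3, one_mul]

end Pool.Agent.H63.MT
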