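import Pool.Agent.H63.MG.Bad

/-! Few quadruples of vertices have a bad transitive blow-up. -/

set_option autoImplicit false
open Finset

namespace Pool.Agent.H63.MT

open Pool.Agent.H63.MG (Pr cd c3 tc tf Cl Cl_of TF TF_congr Pr_lt not_inj_card Good pigeon)

section
variable {V : Type} (rel : V → V → ℕ)

open Classical in
/-- copies of a vertex are joined by arrows -/
noncomputable def rT (u v : V) : ℕ := if u = v then 1 else rel u v

theorem rT_self (u : V) : rT rel u u = 1 := if_pos rfl
theorem rT_ne {u v : V} (h : u ≠ v) : rT rel u v = rel u v := if_neg h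

end

/-- in such a family every vertex occurs at most twice -/
theorem bitsT {V : Type} (rel : V → V → ℕ) (y : Fin 5 → V)
    (h : TF (rT rel) y) : ∃ e : Fin 5 → Fin 2, (Function.Injective fun a => (y a, e a)) ∧
      (∀ a b, a < b → y a = y b → e a = 0 ∧ e b = 1) ∧
      (∀ a b c, a < b → b < c → y a = y b → y b = y c → False) := by
  classical
  have h3 : ∀ a b c : Fin 5, a < b → b < c → y a = y b → y b = y c → False := by
    intro a b c hab hbc h1 h2
    have := h a b c hab hbc
    rw [h1, h2] at this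
    unfold c3 at this
    rw [rT_self] at this
    exact absurd this (by decide)
  let e : Fin 5 → Fin 2 := fun a => if ∃ b, b < a ∧ y b = y a then 1 else 0
  have key0 : ∀ a b, a < b → y a = y b → e a = 0 ∧ e b = 1 := by
    intro a b hab h1
    refine ⟨?_, if_pos ⟨a, hab, h1⟩⟩
    refine if_neg ?_
    rintro ⟨c, hca, hcy⟩
    exact h3 c a b hca hab hcy h1
  have key : ∀ a b, a < b → (y a, e a) = (y b, e b) → False := by
    intro a b hab heq
    have h1 : y a = y b := congrArg Prod.fst heq
    have h2 : e a = e b := congrArg Prod.snd heq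
    obtain ⟨h4, h5⟩ := key0 a b hab h1
    rw [h4, h5] at h2
    exact absurd h2 (by decide)
  refine ⟨e, fun a b heq => ?_, key0, h3⟩
  rcases lt_trichotomy a b with hab | hab | hab
  · exact (key a b hab heq).elim
  · exact hab
  · exact (key b a hab heq.symm).elim

/-- some five vertices, chosen with repetition among the four, have no dominated triple -/
def BadT {V : Type} (rel : V → V → ℕ) (x : Fin 4 → V) : Prop :=
  ∃ s : Fin 5 → Fin 4, TF (rT fun i j => rel (x i) (x j)) s

theorem k1 : ∀ q < 4, ∀ ρ < 2, tc (cd 1 q q) = 0 → tc (cd ρ q q) = 0 := by decide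
theorem k2 {q p ρ : ℕ} (h : Pr q p) (hρ : ρ < 2) : tc (cd q 1 p) = 0 → tc (cd q ρ p) = 0 := by
  rcases h with ⟨rfl, rfl⟩ | ⟨rfl, rfl⟩ | ⟨rfl, rfl⟩ | ⟨rfl, rfl⟩ <;> interval_cases ρ <;> decide
theorem k3 : ∀ q < 4, ∀ ρ < 2, tc (cd q q 1) = 0 → tc (cd q q ρ) = 0 := by decide

/-- a complete box of bad quadruples of one code is impossible -/
theorem no_box {V : Type} (rel : V → V → ℕ) (hG : Good rel)
    (γ : Fin 4 → Fin 4 → ℕ) (τ : Fin 4 → Fin 5 → V) (hτ : ∀ i, Function.Injective (τ i))
    (hb : ∀ j : Fin 4 → Fin 5, Function.Injective (fun i => τ i (j i)) ∧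
      BadT rel (fun i => τ i (j i)) ∧ ∀ a b, rel (τ a (j a)) (τ b (j b)) = γ a b) : False := by
  classical
  have h4 : ∀ x y, rel x y < 4 := fun x y => Pr_lt (hG.hrel x y)
  have hp : ∀ i : Fin 4, ∃ P : Fin 2 → Fin 5, τ i (P 0) ≠ τ i (P 1) ∧
      rel (τ i (P 0)) (τ i (P 1)) < 2 := by
    intro i
    by_contra hno
    push Not at hno
    have h3 : ∀ a b : Fin 5, a ≠ b → rel (τ i a) (τ i b) = 3 := by
      intro a b hab
      have h1 := hno ![a, b] (fun h => hab (hτ i h))
      have h2 := hno ![b, a] (fun h => hab (hτ i h.symm))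
      have h1' : 2 ≤ rel (τ i a) (τ i b) := h1
      have h2' : 2 ≤ rel (τ i b) (τ i a) := h2
      rcases hG.hrel (τ i a) (τ i b) with h' | h' | h' | h' <;> omega
    refine hG.h5 (τ i) (hτ i) ?_
    intro a b c hab hbc
    unfold c3
    rw [h3 a b hab.ne, h3 a c (hab.trans hbc).ne, h3 b c hbc.ne]
    decide
  choose P hP1 hP2 using hp
  obtain ⟨hinj0, ⟨s, hs⟩, hc0⟩ := hb (fun i => P i 0)
  obtain ⟨e, he, he01, h3⟩ := bitsT (fun i j : Fin 4 => rel (τ i (P i 0)) (τ j (P j 0))) s hs
  have hne : ∀ a b, s a ≠ s b → rel (τ (s a) (P (s a) (e a))) (τ (s b) (P (s b) (e b)))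
      = rel (τ (s a) (P (s a) 0)) (τ (s b) (P (s b) 0)) := by
    intro a b hsab
    have h1 : rel (τ (s a) (if s a = s a then P (s a) (e a) else P (s a) (e b)))
        (τ (s b) (if s b = s a then P (s b) (e a) else P (s b) (e b))) = γ (s a) (s b) :=
      (hb (fun i => if i = s a then P i (e a) else P i (e b))).2.2 (s a) (s b)
    rw [if_pos rfl, if_neg (fun h => hsab h.symm)] at h1
    rw [h1, hc0]
  have heq : ∀ a b, a < b → s a = s b →
      rel (τ (s a) (P (s a) (e a))) (τ (s b) (P (s b) (e b))) < 2 := by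
    intro a b hab hsab
    obtain ⟨h0, h1⟩ := he01 a b hab hsab
    rw [h0, h1, ← hsab]
    exact hP2 (s a)
  refine hG.h5 (fun a => τ (s a) (P (s a) (e a))) ?_ ?_
  · intro a b hab
    by_contra hneab
    by_cases hsab : s a = s b
    · have hab' : τ (s a) (P (s a) (e a)) = τ (s b) (P (s b) (e b)) := hab
      rcases lt_or_gt_of_ne hneab with hlt | hlt
      · obtain ⟨h0, h1⟩ := he01 a b hlt hsab
        rw [h0, h1, ← hsab] at hab'
        exact hP1 (s a) hab'
      · obtain ⟨h0, h1⟩ := he01 b a hlt hsab.symm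
        rw [h0, h1, ← hsab] at hab'
        exact hP1 (s a) hab'.symm
    · have h1 := (hb (fun i => if i = s a then P i (e a) else P i (e b))).1
      have h2 : (fun i => τ i ((fun i => if i = s a then P i (e a) else P i (e b)) i)) (s a)
        = (fun i => τ i ((fun i => if i = s a then P i (e a) else P i (e b)) i)) (s b) := by
        show τ (s a) (if s a = s a then P (s a) (e a) else P (s a) (e b))
          = τ (s b) (if s b = s a then P (s b) (e a) else P (s b) (e b))
        rw [if_pos rfl, if_neg (fun h => hsab h.symm)]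
        exact hab
      exact hsab (h1 h2)
  · intro a b c hab hbc
    have ht := hs a b c hab hbc
    unfold c3 at ht ⊢
    show tc (cd (rel (τ (s a) (P (s a) (e a))) (τ (s b) (P (s b) (e b))))
      (rel (τ (s a) (P (s a) (e a))) (τ (s c) (P (s c) (e c))))
      (rel (τ (s b) (P (s b) (e b))) (τ (s c) (P (s c) (e c))))) = 0
    by_cases h1 : s a = s b
    · by_cases h2 : s b = s c
      · exact (h3 a b c hab hbc h1 h2).elim
      · have h2' : s a ≠ s c := fun h => h2 (h1.symm.trans h)
        rw [hne a c h2', hne b c h2]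
        rw [h1, rT_self, rT_ne _ h2] at ht
        rw [h1]
        exact k1 _ (h4 _ _) _ (by have := heq a b hab h1; rwa [h1] at this) ht
    · by_cases h2 : s a = s c
      · have h2' : s b ≠ s c := fun h => h1 (h2.trans h.symm)
        rw [hne a b h1, hne b c h2']
        rw [h2, rT_self, rT_ne _ (fun h => h2' h.symm), rT_ne _ h2'] at ht
        rw [h2]
        exact k2 (hG.hrel _ _) (by
          have := heq a c (hab.trans hbc) h2
          rwa [h2] at this) ht
      · by_cases h3' : s b = s c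
        · rw [hne a b h1, hne a c h2]
          rw [h3', rT_self, rT_ne _ h2] at ht
          rw [h3']
          exact k3 _ (h4 _ _) _ (by have := heq b c hbc h3'; rwa [h3'] at this) ht
        · rw [hne a b h1, hne a c h2, hne b c h3']
          rw [rT_ne _ h1, rT_ne _ h2, rT_ne _ h3'] at ht
          exact ht

open Classical in
theorem few_badT (δ : ℝ) (hδ : 0 < δ) : ∃ m0 : ℕ, ∀ (V : Type) [Fintype V],
    m0 ≤ Fintype.card V → ∀ rel : V → V → ℕ, Good rel →
    ((univ.filter fun x : Fin 4 → V => Function.Injective x ∧ BadT rel x).card : ℝ)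
      ≤ δ * (Fintype.card V : ℝ) ^ 4 := by
  obtain ⟨K, hK⟩ : ∃ K : ℝ, K = (Fintype.card (Fin 4 → Fin 4 → Fin 4) : ℝ) := ⟨_, rfl⟩
  have hKpos : 0 < K := by
    rw [hK]
    exact Nat.cast_pos.2 Fintype.card_pos
  set δ₀ : ℝ := min 1 (δ / (2 * K)) with hδ₀
  have hδ₀pos : 0 < δ₀ := lt_min one_pos (by positivity)
  obtain ⟨n0, hbox⟩ := Pool.Agent.TH484.CL.box 5 (by omega) 4 δ₀ hδ₀pos (min_le_left _ _)
  refine ⟨max n0 1, fun V _ hV rel hG => ?_⟩
  have hV0 : n0 ≤ Fintype.card V := (le_max_left _ _).trans hV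
  have hV1 : 0 < Fintype.card V := (le_max_right _ _).trans hV
  have hVr : (0 : ℝ) < Fintype.card V := by exact_mod_cast hV1
  set n : ℝ := (Fintype.card V : ℝ) with hn
  set B := univ.filter fun x : Fin 4 → V => Function.Injective x ∧ BadT rel x with hB
  have h4 : ∀ x y, rel x y < 4 := fun x y => Pr_lt (hG.hrel x y)
  let γ : (Fin 4 → V) → (Fin 4 → Fin 4 → Fin 4) := fun x i j => ⟨rel (x i) (x j), h4 _ _⟩
  by_contra hcon
  push Not at hcon
  have hex : ∃ g : Fin 4 → Fin 4 → Fin 4, δ₀ * n ^ 4 ≤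
      ((B.filter fun x => γ x = g).card : ℝ) := by
    by_contra hno
    push Not at hno
    have h1 : (B.card : ℝ) ≤ K * (δ₀ * n ^ 4) := by
      rw [hK]
      refine pigeon _ γ _ fun g => lt_of_eq_of_lt ?_ (hno g)
      congr
    have h2 : K * (δ₀ * n ^ 4) ≤ δ / 2 * n ^ 4 := by
      rw [← mul_assoc]
      refine mul_le_mul_of_nonneg_right ?_ (by positivity)
      have : δ₀ ≤ δ / (2 * K) := min_le_right _ _
      rw [le_div_iff₀ (by positivity)] at this
      nlinarith
    have h3 : 0 < δ / 2 * n ^ 4 := by positivity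
    linarith
  obtain ⟨g, hg⟩ := hex
  set D := B.filter fun x => γ x = g with hD
  obtain ⟨τ, hτ, hj⟩ := hbox V hV0 (fun x => if x ∈ D then 1 else 0)
    (fun x => by split_ifs <;> norm_num) (fun x => by split_ifs <;> norm_num)
    (by rw [sum_boole, filter_mem_eq_inter, univ_inter]; exact hg)
  refine no_box rel hG (fun a b => (g a b : ℕ)) τ hτ fun j => ?_
  have hm : (fun i => τ i (j i)) ∈ D := by
    by_contra hnot
    have := hj j
    rw [if_neg hnot] at this
    exact lt_irrefl _ this
  rw [hD, mem_filter, hB, mem_filter] at hm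
  refine ⟨hm.1.2.1, hm.1.2.2, fun a b => ?_⟩
  have := congrFun (congrFun hm.2 a) b
  exact congrArg Fin.val this

theorem exists_badT {V : Type} (rel : V → V → ℕ) (hG : Good rel) (k : ℕ) (hk : 4 ≤ k)
    (f : Fin k → V) (hinj : Function.Injective f)
    (hf : ¬ Cl (rT fun i j => rel (f i) (f j))) :
    ∃ h : Fin 4 → Fin k, Function.Injective h ∧ (Function.Injective (f ∘ h) ∧
      BadT rel (f ∘ h)) := by
  classical
  obtain ⟨y, hy⟩ : ∃ y : Fin 5 → Fin k, TF (rT fun i j => rel (f i) (f j)) y := by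
    by_contra hno
    push Not at hno
    exact hf (Cl_of _ hno)
  have hni : ¬ Function.Injective y := by
    intro h
    refine hG.h5 (fun a => f (y a)) (hinj.comp h) ?_
    intro a b c hab hbc
    have := hy a b c hab hbc
    unfold c3 at this ⊢
    rw [rT_ne _ (fun h' => hab.ne (h h')), rT_ne _ (fun h' => (hab.trans hbc).ne (h h')),
      rT_ne _ (fun h' => hbc.ne (h h'))] at this
    exact this
  unfold Function.Injective at hni
  push Not at hni
  obtain ⟨p, q, hpq, hne⟩ := hni
  have hc : ((univ.erase q).image y).card ≤ 4 := by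
    refine card_image_le.trans ?_
    rw [card_erase_of_mem (mem_univ _), card_univ, Fintype.card_fin]
  obtain ⟨J, hJ, -, hJc⟩ := exists_subsuperset_card_eq (subset_univ _) hc
    (by rw [card_univ, Fintype.card_fin]; exact hk)
  have hs : ∀ a : Fin 5, ∃ s : Fin 4, J.orderEmbOfFin hJc s = y a := by
    have h1 : ∀ a : Fin 5, a ≠ q → ∃ s : Fin 4, J.orderEmbOfFin hJc s = y a := by
      intro a ha
      have : y a ∈ J := hJ (mem_image.2 ⟨a, mem_erase.2 ⟨ha, mem_univ _⟩, rfl⟩)
      have hr : y a ∈ Set.range (J.orderEmbOfFin hJc) := by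
        rw [range_orderEmbOfFin]
        exact this
      exact hr
    intro a
    by_cases ha : a = q
    · obtain ⟨s, hs⟩ := h1 p hne
      exact ⟨s, by rw [hs, ha]; exact hpq⟩
    · exact h1 a ha
  choose s hs using hs
  have hinj2 : Function.Injective (J.orderEmbOfFin hJc) := (J.orderEmbOfFin hJc).injective
  refine ⟨J.orderEmbOfFin hJc, hinj2, hinj.comp hinj2, s, ?_⟩
  refine TF_congr _ _ _ _ (fun a b => ?_) hy
  by_cases hab : s a = s b
  · have hyab : y a = y b := by rw [← hs a, ← hs b, hab]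
    rw [hab, hyab, rT_self, rT_self]
  · have hyab : y a ≠ y b := by
      rw [← hs a, ← hs b]
      exact fun h => hab (hinj2 h)
    rw [rT_ne _ hab, rT_ne _ hyab]
    show rel (f (J.orderEmbOfFin hJc (s a))) (f (J.orderEmbOfFin hJc (s b))) = _
    rw [hs, hs]

end Pool.Agent.H63.MT
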