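import Pool.Agent.H63.MT.Closed
import Pool.Agent.H63.MG.Main

/-! The bound for all mixed graphs. -/

set_option autoImplicit false

namespace Pool.Agent.H63.MT

open Finset
open Pool.Agent.H63.MGS
open Pool.Agent.H63.MG (Pr c3 tc Cl TF TF_congr not_inj_card Good card_exists avg tc_le_one ch3 code
  code_pr code_self free5 tri_count)

open Classical in
theorem asymT (ε : ℝ) (hε : 0 < ε) : ∃ m0 : ℕ, ∀ (V : Type) [Fintype V],
    m0 ≤ Fintype.card V → ∀ rel : V → V → ℕ, Good rel →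
    (7858370 / 31457280 - ε) * (Fintype.card V : ℝ) ^ 3
      ≤ ∑ a, ∑ b, ∑ d, (tc (c3 rel a b d) : ℝ) := by
  obtain ⟨k, hk⟩ : ∃ k : ℕ, max 20000 (10680 / ε) ≤ (k : ℝ) := exists_nat_ge _
  have hkr : (20000 : ℝ) ≤ k := (le_max_left _ _).trans hk
  have hk4 : 20000 ≤ k := by exact_mod_cast hkr
  have hkε : 10680 / ε ≤ k := (le_max_right _ _).trans hk
  have hk0 : (0 : ℝ) < k := by linarith
  obtain ⟨m0, hm0⟩ := few_badT (ε / (4 * (k : ℝ) ^ 4)) (by positivity)
  obtain ⟨n0, hn0⟩ : ∃ n0 : ℕ, max 1 (4 * (k : ℝ) ^ 2 / ε) ≤ (n0 : ℝ) := exists_nat_ge _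
  refine ⟨max m0 n0, fun V _ hV rel hG => ?_⟩
  have hVn : (n0 : ℝ) ≤ Fintype.card V := by exact_mod_cast (le_max_right _ _).trans hV
  have hV1 : (1 : ℝ) ≤ Fintype.card V := (le_max_left _ _).trans (hn0.trans hVn)
  have hV2 : 4 * (k : ℝ) ^ 2 / ε ≤ Fintype.card V := (le_max_right _ _).trans (hn0.trans hVn)
  have hV0 : 0 < Fintype.card V := by exact_mod_cast hV1
  have hVr : (0 : ℝ) < Fintype.card V := by linarith
  have hne : Nonempty V := Fintype.card_pos_iff.1 hV0
  have hB := hm0 V ((le_max_left _ _).trans hV) rel hG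
  set n : ℝ := (Fintype.card V : ℝ) with hn
  have hF1 := card_exists (k := k)
    (univ.filter fun x : Fin 4 → V => Function.Injective x ∧ BadT rel x) _ hB hV0
    (univ.filter fun f : Fin k → V => Function.Injective f ∧
      ¬ Cl (rT fun i j => rel (f i) (f j)))
    (fun f hf => by
      obtain ⟨h, hi, hb⟩ := exists_badT rel hG k (by omega) f (mem_filter.1 hf).2.1
        (mem_filter.1 hf).2.2
      exact ⟨h, hi, mem_filter.2 ⟨mem_univ _, hb⟩⟩)
  have hF2 := not_inj_card k hV0 (univ.filter fun f : Fin k → V => ¬ Function.Injective f)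
    (fun f hf => (mem_filter.1 hf).2)
  have e1 : (k : ℝ) ^ 4 * (ε / (4 * (k : ℝ) ^ 4)) = ε / 4 := by field_simp
  rw [e1] at hF1
  have e2 : (k : ℝ) ^ 2 * (1 / n) ≤ ε / 4 := by
    rw [mul_one_div, div_le_iff₀ hVr]
    rw [div_le_iff₀ hε] at hV2
    linarith
  have hF3 : (((univ.filter fun f : Fin k → V => Function.Injective f ∧
      ¬ Cl (rT fun i j => rel (f i) (f j))) ∪
      (univ.filter fun f : Fin k → V => ¬ Function.Injective f)).card : ℝ)
      ≤ (ε / 2) * n ^ k := by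
    have h1 : (((univ.filter fun f : Fin k → V => Function.Injective f ∧
      ¬ Cl (rT fun i j => rel (f i) (f j))) ∪
      (univ.filter fun f : Fin k → V => ¬ Function.Injective f)).card : ℝ)
      ≤ ((univ.filter fun f : Fin k → V => Function.Injective f ∧
      ¬ Cl (rT fun i j => rel (f i) (f j))).card : ℝ)
        + ((univ.filter fun f : Fin k → V => ¬ Function.Injective f).card : ℝ) := by
      exact_mod_cast card_union_le _ _
    have h2 : (k : ℝ) ^ 2 * (1 / n) * n ^ k ≤ ε / 4 * n ^ k :=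
      mul_le_mul_of_nonneg_right e2 (by positivity)
    calc _ ≤ _ := h1
      _ ≤ ε / 4 * n ^ k + ε / 4 * n ^ k := add_le_add hF1 (hF2.trans h2)
      _ = _ := by ring
  have h2667 : 2667 / (k : ℝ) ≤ 1 / 7 := by
    rw [div_le_iff₀ hk0]
    linarith
  have h2667' : 2667 / (k : ℝ) ≤ ε / 4 := by
    rw [div_le_iff₀ hk0]
    rw [div_le_iff₀ hε] at hkε
    linarith
  have h3k : 3 / (k : ℝ) ≤ ε / 4 := by
    rw [div_le_iff₀ hk0]
    rw [div_le_iff₀ hε] at hkε
    linarith
  have h0k : 0 ≤ 2667 / (k : ℝ) := by positivity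
  have hA := avg (fun a b d => (tc (c3 rel a b d) : ℝ)) (fun _ _ _ => Nat.cast_nonneg _)
    (fun _ _ _ => by exact_mod_cast tc_le_one _) k (by omega)
    (7858370 / 31457280 - 2667 / (k : ℝ)) (ε / 2)
    (by norm_num at h2667 ⊢; linarith) _ hF3
    (fun f hf => by
      rw [mem_union, not_or] at hf
      obtain ⟨hf1, hf2⟩ := hf
      have hinj : Function.Injective f := by
        by_contra hno
        exact hf2 (mem_filter.2 ⟨mem_univ _, hno⟩)
      have hcl : Cl (rT fun i j => rel (f i) (f j)) := by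
        by_contra hno
        exact hf1 (mem_filter.2 ⟨mem_univ _, hinj, hno⟩)
      exact closedT k (by omega) (fun i j => rel (f i) (f j)) (fun _ _ => hG.hrel _ _) hcl)
  refine le_trans (mul_le_mul_of_nonneg_right ?_ (by positivity)) hA
  have h5 : 0 ≤ (2667 / (k : ℝ)) * (ε / 2) := by positivity
  have h6 : (7858370 / 31457280 - 2667 / (k : ℝ)) * (1 - ε / 2) - 3 / (k : ℝ)
      = 7858370 / 31457280 - 2667 / (k : ℝ) - 7858370 / 31457280 * (ε / 2)
        + (2667 / (k : ℝ)) * (ε / 2) - 3 / (k : ℝ) := by ring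
  rw [h6]
  nlinarith

/-- all mixed graphs -/
theorem all_mixed : ∃ n₀ : ℕ, ∀ n : ℕ, n₀ ≤ n → ∀ G : MixedGraph (Fin n),
    K53Free G.threeGraph → (G.threeGraph.card : ℝ) ≤ 0.7502 * (n.choose 3 : ℝ) := by
  classical
  obtain ⟨n1, h1⟩ := asymT (1 / 200000) (by norm_num)
  refine ⟨max n1 1000000, fun n hn G hG => ?_⟩
  have hgood : Good (code G) := ⟨code_pr G, code_self G, free5 G hG⟩
  have h2 := h1 (Fin n) (by rw [Fintype.card_fin]; exact (le_max_left _ _).trans hn) (code G)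
    hgood
  rw [Fintype.card_fin] at h2
  have h3 : (6 : ℝ) * (G.threeGraph.card : ℝ)
      + ∑ a, ∑ b, ∑ d, (tc (c3 (code G) a b d) : ℝ) ≤ (n : ℝ) ^ 3 := by
    exact_mod_cast tri_count G
  have hnr : (1000000 : ℝ) ≤ n := by exact_mod_cast (le_max_right _ _).trans hn
  have h4 := ch3 n
  have h5 : (0.7502 : ℝ) * (n * (n - 1) * (n - 2)) ≥
      (1 - (7858370 / 31457280 - 1 / 200000)) * (n : ℝ) ^ 3 := by
    have h6 : 0 ≤ (n : ℝ) ^ 2 * (n - 1000000) := mul_nonneg (by positivity) (by linarith)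
    have h7 : 0 ≤ (n : ℝ) := by linarith
    norm_num at *
    nlinarith
  nlinarith

end Pool.Agent.H63.MT
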