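import Pool.Agent.H63.MG.Psd
import Pool.Agent.H63.MT.TabP

/-! Positive semidefinite forms from tables. -/

set_option autoImplicit false
set_option maxRecDepth 100000
open Finset

namespace Pool.Agent.H63.MT

open Pool.Agent.H63.MG

theorem rs_cast (t a : ℕ) : ((rs t a : ℕ) : ℝ) = ∑ k ∈ range 65, (lt t a k : ℝ) := by
  unfold rs
  rw [nsum_eq]
  push_cast
  rfl

/-- the remainder -/
theorem rem_eq (t a b : ℕ) : ((rx t a b : ℕ) : ℝ) - (ry t a b : ℕ) =
    (sc t : ℝ) * ((gt t a b : ℝ) - 67108864) -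
      ∑ k ∈ range 65, ((lt t a k : ℝ) - 67108864) * ((lt t b k : ℝ) - 67108864) := by
  have e1 : ((rx t a b : ℕ) : ℝ) = (sc t : ℝ) * (gt t a b : ℝ) +
      67108864 * ((∑ k ∈ range 65, (lt t a k : ℝ)) + ∑ k ∈ range 65, (lt t b k : ℝ)) := by
    unfold rx
    simp only [Nat.add_eq, Nat.mul_eq]
    push_cast
    rw [rs_cast, rs_cast]
  have e2 : ((ry t a b : ℕ) : ℝ) = ∑ k ∈ range 65, (lt t a k : ℝ) * (lt t b k : ℝ) +
      ((sc t : ℝ) * 67108864 + 292733975779082240) := by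
    unfold ry
    rw [nsum_eq]
    simp only [Nat.add_eq, Nat.mul_eq]
    push_cast
    rfl
  have e3 : ∑ k ∈ range 65, ((lt t a k : ℝ) - 67108864) * ((lt t b k : ℝ) - 67108864) =
      ∑ k ∈ range 65, (lt t a k : ℝ) * (lt t b k : ℝ)
        - 67108864 * ((∑ k ∈ range 65, (lt t a k : ℝ)) + ∑ k ∈ range 65, (lt t b k : ℝ))
        + 292733975779082240 := by
    have : (292733975779082240 : ℝ) = ∑ k ∈ range 65, (67108864 * 67108864 : ℝ) := by
      rw [sum_const, card_range]; norm_num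
    rw [this, ← sum_add_distrib, mul_sum, ← sum_sub_distrib, ← sum_add_distrib]
    exact sum_congr rfl fun k _ => by ring
  rw [e1, e2, e3]
  ring

theorem g_psd (t : ℕ) (hd : ∀ a < 65, dom t a = true) (hs : chks t = true) (hp : 0 < sc t) (z : ℕ → ℝ) :
    0 ≤ ∑ a ∈ range 65, ∑ b ∈ range 65, z a * z b * ((gt t a b : ℝ) - 67108864) := by
  set R : ℕ → ℕ → ℝ := fun a b => ((rx t a b : ℕ) : ℝ) - (ry t a b : ℕ) with hR
  have hsym : ∀ a < 65, ∀ b < 65, gt t a b = gt t b a := fun a ha b hb =>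
    Nat.eq_of_beq_eq_true (nall_true (nall_true hs a ha) b hb)
  have h1 : 0 ≤ ∑ a ∈ range 65, ∑ b ∈ range 65, z a * z b * R a b := by
    refine dom_psd 65 R ?_ ?_ z
    · intro a ha b hb
      simp only [hR]
      rw [rem_eq, rem_eq, hsym a ha b hb]
      congr 1
      exact sum_congr rfl fun k _ => mul_comm _ _
    · intro a ha
      have h := Nat.le_of_ble_eq_true (hd a ha)
      rw [nsum_eq] at h
      simp only [Nat.add_eq, Nat.mul_eq] at h
      have h2 : ((∑ b ∈ range 65, Pool.Agent.H63.MG.dist (rx t a b) (ry t a b) + 2 * ry t a a : ℕ) : ℝ) ≤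
          ((2 * rx t a a : ℕ) : ℝ) := by exact_mod_cast h
      push_cast at h2
      simp only [dist_cast] at h2
      simp only [hR]
      linarith
  have h2 := sq_psd 65 65 (fun a k => (lt t a k : ℝ) - 67108864) z
  have h3 : (sc t : ℝ) * ∑ a ∈ range 65, ∑ b ∈ range 65, z a * z b * ((gt t a b : ℝ) - 67108864) =
      ∑ a ∈ range 65, ∑ b ∈ range 65, z a * z b * R a b +
      ∑ a ∈ range 65, ∑ b ∈ range 65, z a * z b *
        ∑ k ∈ range 65, ((lt t a k : ℝ) - 67108864) * ((lt t b k : ℝ) - 67108864) := by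
    rw [mul_sum, ← sum_add_distrib]
    refine sum_congr rfl fun a _ => ?_
    rw [mul_sum, ← sum_add_distrib]
    refine sum_congr rfl fun b _ => ?_
    simp only [hR]
    rw [rem_eq]
    ring
  have h4 : 0 ≤ (sc t : ℝ) * ∑ a ∈ range 65, ∑ b ∈ range 65,
      z a * z b * ((gt t a b : ℝ) - 67108864) := by
    rw [h3]; exact add_nonneg h1 h2
  have h5 : (0 : ℝ) < sc t := by exact_mod_cast hp
  exact nonneg_of_mul_nonneg_right h4 h5


end Pool.Agent.H63.MT
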